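import Pool.Agent.H.MP_25bc1d_an.A

set_option autoImplicit false

open Filter Topology Set Function

namespace Pool.Agent.Results.MP_25bc1d_an.Yes

open Pool.Agent.H.MP_25bc1d_an

noncomputable def tent (μ x : ℝ) : ℝ := 2 * μ * min x (1 - x)

/-- The permutation `π` of length `n` is the order pattern of some orbit segment of `f`. -/
def Allowed (f : ℝ → ℝ) (n : ℕ) (π : Equiv.Perm (Fin n)) : Prop :=
  ∃ x ∈ Icc (0 : ℝ) 1, Injective (fun i : Fin n => f^[i] x) ∧
    ∀ i j : Fin n, π i < π j ↔ f^[i] x < f^[j] x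

/-- `i ↦ i - 2` modulo `n`. -/
def sigma (n : ℕ) : Equiv.Perm (Fin n) := (finRotate n)⁻¹ * (finRotate n)⁻¹

theorem tent_mem {μ x : ℝ} (h0 : 0 ≤ μ) (hx : x ∈ Icc (0 : ℝ) 1) :
    0 ≤ tent μ x ∧ tent μ x ≤ μ := by
  have h1 : 0 ≤ min x (1 - x) := le_min hx.1 (by linarith [hx.2])
  have h2 : min x (1 - x) ≤ 1 / 2 := by linarith [min_le_left x (1 - x), min_le_right x (1 - x)]
  exact ⟨by unfold tent; positivity, by unfold tent; nlinarith⟩

theorem it_mem {μ x : ℝ} (h0 : 0 ≤ μ) (h1 : μ ≤ 1) (hx : x ∈ Icc (0 : ℝ) 1) (k : ℕ) :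
    (tent μ)^[k] x ∈ Icc (0 : ℝ) 1 := by
  induction k with
  | zero => exact hx
  | succ k ih =>
    rw [iterate_succ_apply']
    exact ⟨(tent_mem h0 ih).1, (tent_mem h0 ih).2.trans h1⟩

theorem cmp {s : ℝ} (hs : 1 < s) {w : ℕ → Bool} {m i : ℕ} {y a : ℕ → ℝ} (hi : i < m)
    (hy : Orb s w m y) (ha : Sol s (ext w m i) a) :
    (a m < y m → y i < y m) ∧ (y m < a m → y m < y i) ∧ (y m = a m → y i = y m) := by
  have h := orb_abs hs hy (z := a) (fun k hk => by rw [ha.2, ext_lt w i hk]) i hi.le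
  have e := sol_per hs ha (le_refl i)
  rw [show i + (m - i) = m by omega] at e
  have p := one_lt_pow₀ (n := m - i) hs (by omega)
  rw [← e] at h
  have n := abs_nonneg (y i - a m)
  refine ⟨fun k => ?_, fun k => ?_, fun k => ?_⟩
  · rw [abs_of_pos (sub_pos.2 k)] at h
    by_contra! c
    nlinarith [le_abs_self (y i - a m)]
  · rw [abs_of_neg (sub_neg.2 k)] at h
    by_contra! c
    nlinarith [neg_abs_le (y i - a m)]
  · rw [k, sub_self, abs_zero, mul_eq_zero, abs_eq_zero] at h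
    rcases h with h | h <;> linarith

theorem main {s : ℝ} (hs : 1 < s) (s2 : s < 2) {m : ℕ} (hm : s ^ m * (2 - s) < 1) {w : ℕ → Bool}
    {x : ℕ → ℝ} (hx : Sol 2 w x) (ne : ∀ i < m + 1, x i ≠ x (m + 1)) :
    ∃ y, Orb s w (m + 1) y ∧ 0 ≤ y (m + 1) ∧ (∀ k < m + 1, y (k + 1) < s / 2) ∧
      ∀ i < m + 1, (x i < x (m + 1) → y i < y (m + 1)) ∧ (x (m + 1) < x i → y (m + 1) < y i) := by
  have s0 : 0 < s := by linarith
  choose a ha using fun i => sol_ex one_lt_two (ext w (m + 1) i)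
  choose b hb using fun i => sol_ex hs (ext w (m + 1) i)
  have c := fun i (hi : i < m + 1) => cmp one_lt_two hi (fun k _ => hx.2 k) (ha i)
  have lo : ∀ i < m + 1, x i < x (m + 1) → a i (m + 1) < x (m + 1) := fun i hi k => by
    rcases lt_trichotomy (a i (m + 1)) (x (m + 1)) with h | h | h
    exacts [h, absurd ((c i hi).2.2 h.symm) k.ne, absurd ((c i hi).2.1 h) k.not_gt]
  have up : ∀ i < m + 1, x (m + 1) < x i → x (m + 1) < a i (m + 1) := fun i hi k => by
    rcases lt_trichotomy (a i (m + 1)) (x (m + 1)) with h | h | h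
    exacts [absurd ((c i hi).1 h) k.not_gt, absurd ((c i hi).2.2 h.symm) k.ne', h]
  have zer : ∀ {t : ℝ} {d : ℕ → ℝ} (i : ℕ), i < m + 1 → 1 < t → Sol t (ext w (m + 1) i) d →
      (¬∃ r, i ≤ r ∧ r < m + 1 ∧ w r = true) → ∀ k, d (i + k) = 0 := fun i hi ht hd q k => by
    refine sol_uniq ht (hd.shift (i + k)) (z := fun _ => 0) ⟨by simp, fun j => ?_⟩
    have : ext w (m + 1) i (i + k + j) = false := by
      by_contra h
      rw [H.MP_25bc1d_an.ext, if_neg (by omega)] at h
      exact q ⟨i + (i + k + j - i) % (m + 1 - i), by omega, by have := Nat.mod_lt (i + k + j - i) (y := m + 1 - i) (by omega); omega,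
        by simpa using h⟩
    simp [this, g]
  have pos : ∀ i r, i ≤ r → r < m + 1 → w r = true → 0 < b i (m + 1) := fun i r h1 h2 h3 => by
    obtain ⟨q, q1, -, q3⟩ := ext_R h1 h2 h3 (m + 1) (by omega)
    have := low hs (hb i) le_rfl (fun k => ((hb i).1 _).2) (q - (m + 1)) (m + 1) q q1 (by omega) q3
    have e : 1 / s < 1 := (div_lt_one s0).2 hs
    exact (mul_pos_iff_of_pos_right (pow_pos s0 _)).1 (lt_of_lt_of_le (by linarith) this)
  have tl : ∀ i < m + 1, ∀ k, b i (m + 1 + (k + 1)) < s / 2 := fun i hi k => by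
    by_cases q : ∃ r, i ≤ r ∧ r < m + 1 ∧ w r = true
    · obtain ⟨r, h1, h2, h3⟩ := q
      exact adm hs hm (hb i) h1 h2 h3 _
    · have := zer i hi hs (hb i) q (m + 1 + (k + 1) - i)
      rw [show i + (m + 1 + (k + 1) - i) = m + 1 + (k + 1) by omega] at this
      linarith
  have lt : ∀ i < m + 1, ∀ j < m + 1, x i < x (m + 1) → x (m + 1) < x j →
      b i (m + 1) < b j (m + 1) := fun i hi j hj h1 h2 =>
    sol_ord hs ((ha i).shift (m + 1)) ((ha j).shift (m + 1)) ((hb i).shift (m + 1))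
      ((hb j).shift (m + 1)) (tl i hi) (tl j hj) ((lo i hi h1).trans (up j hj h2))
  have fin : ∀ (r : ℕ → ℝ) (F : Filter ℝ) [F.NeBot], Orb s w (m + 1) r →
      (∀ k < m + 1, r (k + 1) < s / 2) → F ≤ 𝓝 (r (m + 1)) → (∀ᶠ z in F, 0 ≤ z) →
      (∀ i < m + 1, (x i < x (m + 1) → ∀ᶠ z in F, b i (m + 1) < z) ∧
        (x (m + 1) < x i → ∀ᶠ z in F, z < b i (m + 1))) →
      ∃ y, Orb s w (m + 1) y ∧ 0 ≤ y (m + 1) ∧ (∀ k < m + 1, y (k + 1) < s / 2) ∧
      ∀ i < m + 1, (x i < x (m + 1) → y i < y (m + 1)) ∧ (x (m + 1) < x i → y (m + 1) < y i) := by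
    intro r F _ h1 h2 h3 h4 h5
    have : ∀ᶠ z in F, ∀ i ∈ Iio (m + 1), r (i + 1) + |z - r (m + 1)| < s / 2 ∧
        (x i < x (m + 1) → b i (m + 1) < z) ∧ (x (m + 1) < x i → z < b i (m + 1)) := by
      refine (eventually_all_finite (finite_lt_nat _)).2 fun i hi => Eventually.and ?_
        ((eventually_imp_distrib_left.2 (h5 i hi).1).and (eventually_imp_distrib_left.2 (h5 i hi).2))
      have : Continuous fun z => r (i + 1) + |z - r (m + 1)| := by fun_prop
      exact ((this.tendsto _).mono_left h3).eventually_lt_const (by simpa using h2 i hi)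
    obtain ⟨z, z0, hz⟩ := (h4.and this).exists
    obtain ⟨y, y1, rfl⟩ := orb_ex (s := s) w (m + 1) z
    refine ⟨y, y1, z0, fun k hk => ?_, fun i hi => ⟨fun k => (cmp hs hi y1 (hb i)).1
      ((hz i hi).2.1 k), fun k => (cmp hs hi y1 (hb i)).2.1 ((hz i hi).2.2 k)⟩⟩
    have := orb_abs hs y1 h1 (k + 1) hk
    have p := one_le_pow₀ (n := m + 1 - (k + 1)) hs.le
    nlinarith [(hz k hk).1, le_abs_self (y (k + 1) - r (k + 1)), abs_nonneg (y (k + 1) - r (k + 1))]
  have ob : ∀ i, Orb s w (m + 1) (b i) := fun i k hk => by rw [(hb i).2, ext_lt w i hk]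
  by_cases q : ∃ i < m + 1, x i < x (m + 1) ∧ 0 < b i (m + 1)
  · obtain ⟨i, h1, h2, h3⟩ := q
    obtain ⟨j, ⟨j1, j2⟩, hj⟩ := exists_max_image {i | i < m + 1 ∧ x i < x (m + 1)}
      (fun i => b i (m + 1)) ((finite_lt_nat _).subset fun _ h => h.1) ⟨i, h1, h2⟩
    have j3 := h3.trans_le (hj i ⟨h1, h2⟩)
    obtain ⟨r, r1, r2, r3⟩ : ∃ r, j ≤ r ∧ r < m + 1 ∧ w r = true := by
      by_contra q
      have := zer j j1 hs (hb j) q (m + 1 - j)
      rw [show j + (m + 1 - j) = m + 1 by omega] at this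
      exact j3.ne' this
    exact fin (b j) (𝓝[>] (b j (m + 1))) (ob j) (fun k _ => adm hs hm (hb j) r1 r2 r3 k)
      nhdsWithin_le_nhds (eventually_mem_nhdsWithin.mono fun z hz => (j3.trans hz).le)
      fun i hi => ⟨fun k => eventually_mem_nhdsWithin.mono fun z hz => (hj i ⟨hi, k⟩).trans_lt hz,
        fun k => nhdsWithin_le_nhds (gt_mem_nhds (lt j j1 i hi j2 k))⟩
  push Not at q
  by_cases q' : ∃ i < m + 1, x (m + 1) < x i
  · obtain ⟨j, ⟨j1, j2⟩, hj⟩ := exists_min_image {i | i < m + 1 ∧ x (m + 1) < x i}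
      (fun i => b i (m + 1)) ((finite_lt_nat _).subset fun _ h => h.1) q'
    obtain ⟨r, r1, r2, r3⟩ : ∃ r, j ≤ r ∧ r < m + 1 ∧ w r = true := by
      by_contra q
      have := zer j j1 one_lt_two (ha j) q (m + 1 - j)
      rw [show j + (m + 1 - j) = m + 1 by omega] at this
      linarith [up j j1 j2, (hx.1 (m + 1)).1]
    have j3 := pos j r r1 r2 r3
    exact fin (b j) (𝓝[<] (b j (m + 1))) (ob j) (fun k _ => adm hs hm (hb j) r1 r2 r3 k)
      nhdsWithin_le_nhds (nhdsWithin_le_nhds (le_mem_nhds j3))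
      fun i hi => ⟨fun k => nhdsWithin_le_nhds (lt_mem_nhds ((q i hi k).trans_lt j3)),
        fun k => eventually_mem_nhdsWithin.mono fun z hz => lt_of_lt_of_le hz (hj i ⟨hi, k⟩)⟩
  · push Not at q'
    refine fin (fun _ => 0) (𝓝[>] 0) (fun k hk => ?_) (fun _ _ => by linarith) nhdsWithin_le_nhds
      (eventually_mem_nhdsWithin.mono fun z hz => le_of_lt hz)
      fun i hi => ⟨fun k => eventually_mem_nhdsWithin.mono fun z hz => (q i hi k).trans_lt hz,
        fun k => absurd k (q' i hi).not_gt⟩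
    have : w k = false := by
      by_contra h
      exact (q k hk ((q' k hk).lt_of_ne (ne k hk))).not_gt (pos k k le_rfl hk (by simpa using h))
    simp [this, g]

theorem all {μ : ℝ} (h1 : 1 / 2 < μ) (h2 : μ < 1) {m : ℕ} (hm : (2 * μ) ^ m * (2 - 2 * μ) < 1)
    (π : Equiv.Perm (Fin (m + 2))) (h : Allowed (tent 1) _ π) : Allowed (tent μ) _ π := by
  obtain ⟨x, x0, x1, x2⟩ := h
  have hs : 1 < 2 * μ := by linarith
  have hx : Sol 2 (fun k => decide (1 / 2 < (tent 1)^[k] x)) fun k => (tent 1)^[k] x :=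
    ⟨it_mem zero_le_one le_rfl x0, fun k => by
      simp only [iterate_succ_apply', g, decide_eq_true_eq, tent]
      split_ifs with h
      · rw [min_eq_right (by linarith)]; ring
      · rw [min_eq_left (by linarith)]; ring⟩
  obtain ⟨y, y1, y2, y3, y4⟩ := main hs (by linarith) hm hx fun i hi k => by
    have := @x1 ⟨i, by omega⟩ ⟨m + 1, by omega⟩ k
    simp at this
    omega
  have y5 := orb_mem hs y1 ⟨y2, by linarith [y3 m (by omega)]⟩
  have y6 := orb_ord hs (fun k _ => hx.2 k) y1 (fun k => (hx.1 k).2) y3 y4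
  have e : ∀ k ≤ m + 1, (tent μ)^[k] (y 0) = y k := fun k hk => by
    induction k with
    | zero => rfl
    | succ k ih =>
      have : y (k + 1) / (2 * μ) ≤ 1 / 2 := by
        rw [div_le_iff₀ (by linarith)]; linarith [y3 k hk]
      rw [iterate_succ_apply', ih (by omega), y1 k hk, g, tent]
      split_ifs
      · rw [min_eq_right (by linarith)]; field_simp; ring
      · rw [min_eq_left (by linarith)]; field_simp
  have o : ∀ i j : Fin (m + 2), (tent 1)^[i] x < (tent 1)^[j] x →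
      (tent μ)^[i] (y 0) < (tent μ)^[j] (y 0) := fun i j k => by
    rw [e i (by omega), e j (by omega)]
    rcases lt_trichotomy (i : ℕ) j with h | h | h
    · exact (y6 j (by omega) i h).1 k
    · rw [h] at k; exact absurd k (lt_irrefl _)
    · exact (y6 i (by omega) j h).2 k
  refine ⟨y 0, y5 0 (by omega), fun i j k => ?_, fun i j => ⟨fun k => o i j ((x2 i j).1 k),
    fun k => (x2 i j).2 ?_⟩⟩
  · by_contra c
    rcases lt_or_gt_of_ne (x1.ne c) with h | h
    exacts [(o i j h).ne k, (o j i h).ne' k]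
  · by_contra! c
    rcases c.eq_or_lt with h | h
    · rw [x1 h] at k; exact lt_irrefl _ k
    · exact (o j i h).not_gt k

theorem sig (m : ℕ) (i : Fin (m + 2)) :
    (sigma (m + 2) i : ℕ) + 1 = if (i : ℕ) < 2 then m + 2 - 1 + i else i - 1 := by
  have r : ∀ j : Fin (m + 2), ((finRotate (m + 2))⁻¹ j : ℕ) = if (j : ℕ) = 0 then m + 1 else j - 1 :=
    fun j => by
      split_ifs with h
      · rw [show j = 0 from Fin.ext h, ← finRotate_last, Equiv.Perm.inv_def, Equiv.symm_apply_apply,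
          Fin.val_last]
      · exact coe_finRotate_symm_of_ne_zero fun k => h (by simp [k])
  rw [sigma, Equiv.Perm.mul_apply, r, r, show m + 2 - 1 = m + 1 from rfl]
  split_ifs <;> first | omega | simp_all

theorem cond {μ : ℝ} (h1 : 1 / 2 < μ) (h2 : μ < 1) {m : ℕ} (h : Allowed (tent μ) _ (sigma (m + 2))) :
    (2 * μ) ^ m * (2 - 2 * μ) < 1 := by
  obtain ⟨x, x0, -, hx⟩ := h
  cases m with
  | zero => linarith
  | succ m =>
  have o : ∀ i j (hi : i < m + 3) (hj : j < m + 3), (if i < 2 then m + 2 + i else i - 1) <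
      (if j < 2 then m + 2 + j else j - 1) → (tent μ)^[i] x < (tent μ)^[j] x := fun i j hi hj k =>
    (hx ⟨i, hi⟩ ⟨j, hj⟩).1 (by
      have a := sig _ ⟨i, hi⟩
      have b := sig _ ⟨j, hj⟩
      rw [Fin.lt_def]
      simp only at a b
      split_ifs at a b k <;> omega)
  have mem := it_mem (by linarith) h2.le x0
  have e : ∀ k ≤ m, (tent μ)^[k + 2] x = (2 * μ) ^ k * (tent μ)^[2] x := fun k hk => by
    induction k with
    | zero => simp
    | succ k ih =>
      have a := o (k + 2) 0 (by omega) (by omega) (by simp; omega)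
      have b := o (k + 3) 1 (by omega) (by omega) (by simp; omega)
      rw [iterate_succ_apply', iterate_one] at b
      rw [iterate_zero_apply] at a
      rw [show k + 1 + 2 = k + 2 + 1 from rfl, iterate_succ_apply', pow_succ', mul_assoc,
        ← ih (by omega), tent, min_eq_left]
      by_contra! c
      rw [tent, tent, min_eq_right c.le, min_eq_right (by linarith)] at b
      nlinarith
  have a := o (m + 2) 0 (by omega) (by omega) (by simp)
  have b := o 2 1 (by omega) (by omega) (by simp)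
  have p := one_le_pow₀ (n := m) (show 1 ≤ 2 * μ by linarith)
  have t : tent μ (tent μ x) = 2 * μ * (1 - tent μ x) := by
    change tent μ (tent μ x) < tent μ x at b
    rw [tent, min_eq_right]
    by_contra! c
    rw [tent, min_eq_left c.le] at b
    nlinarith [(tent_mem (μ := μ) (by linarith) x0).1]
  rw [e m le_rfl] at a
  change _ * tent μ (tent μ x) < x at a
  rw [t, ← mul_assoc, ← pow_succ] at a
  have p2 : 1 ≤ (2 * μ) ^ (m + 1) := one_le_pow₀ (by linarith)
  rcases le_total x (1 / 2) with k | k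
  · nlinarith [(tent_mem (μ := μ) (by linarith) x0).2]
  · rw [tent, min_eq_right (by linarith)] at a
    have : 0 ≤ (x - 1 / 2) * ((2 * μ) ^ (m + 1) * (2 * μ) - 1) :=
      mul_nonneg (by linarith) (by nlinarith)
    nlinarith

theorem result (μ : ℝ) (h1 : 1 / 2 < μ) (h2 : μ < 1) (n : ℕ) (hn : 1 ≤ n)
    (h : ∃ π : Equiv.Perm (Fin n), Allowed (tent 1) n π ∧ ¬Allowed (tent μ) n π) :
    2 ≤ n ∧ (∀ i : Fin n, (sigma n i : ℕ) + 1 = if (i : ℕ) < 2 then n - 1 + i else i - 1) ∧
      ¬Allowed (tent μ) n (sigma n) := by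
  obtain ⟨π, p1, p2⟩ := h
  rcases hn.eq_or_lt with rfl | hn
  · exact absurd ⟨0, by simp, injective_of_subsingleton _, fun i j => by
      simp [Subsingleton.elim i j]⟩ p2
  obtain ⟨m, rfl⟩ : ∃ m, n = m + 2 := ⟨n - 2, by omega⟩
  exact ⟨hn, sig m, fun k => p2 (all h1 h2 (cond h1 h2 k) π p1)⟩

end Pool.Agent.Results.MP_25bc1d_an.Yes
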